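import Pool.Agent.H5.FC.Defs

/-!
# Non-symmetric discrete characters and LERF

If a finite index subgroup `H` of `G` has a discrete character `ψ` with `-ψ` in `Sigma^1(H)` and
`ψ` not in `Sigma^1(H)`, then `G` is not LERF.
-/

namespace FCyc

open Multiplicative

variable {H : Type} [Group H]

/-- An integer valued homomorphism as a real valued one. -/
noncomputable def toReal (ψ : H →* Multiplicative ℤ) : H →* Multiplicative ℝ :=
  (AddMonoidHom.toMultiplicative (Int.castAddHom ℝ)).comp ψ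

@[simp] lemma toReal_apply (ψ : H →* Multiplicative ℤ) (h : H) :
    toAdd (toReal ψ h) = ((toAdd (ψ h) : ℤ) : ℝ) := rfl

private lemma rtg_mono {r q : H → H → Prop} (h : ∀ a b, r a b → q a b) {a b : H}
    (hab : Relation.ReflTransGen r a b) : Relation.ReflTransGen q a b := by
  induction hab with
  | refl => exact .refl
  | tail _ h2 ih => exact ih.tail (h _ _ h2)

lemma Step.symm {χ : H →* Multiplicative ℝ} {S : Set H} {a b : H} (h : Step χ S a b) :
    Step χ S b a := by
  obtain ⟨h1, h2, s, hs, h3⟩ := h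
  exact ⟨h2, h1, s, hs, h3.symm⟩

lemma path_symm {χ : H →* Multiplicative ℝ} {S : Set H} {a b : H}
    (h : Relation.ReflTransGen (Step χ S) a b) : Relation.ReflTransGen (Step χ S) b a := by
  induction h with
  | refl => exact .refl
  | tail _ h2 ih => exact (Relation.ReflTransGen.single h2.symm).trans ih

lemma path_mul {χ : H →* Multiplicative ℝ} {S : Set H} (g : H) (hg : 0 ≤ toAdd (χ g)) {a b : H}
    (h : Relation.ReflTransGen (Step χ S) a b) :
    Relation.ReflTransGen (Step χ S) (g * a) (g * b) := by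
  induction h with
  | refl => exact .refl
  | tail _ h2 ih =>
    refine ih.tail ?_
    obtain ⟨h3, h4, s, hs, h5⟩ := h2
    refine ⟨?_, ?_, s, hs, ?_⟩
    · rw [map_mul, toAdd_mul]; exact add_nonneg hg h3
    · rw [map_mul, toAdd_mul]; exact add_nonneg hg h4
    · rcases h5 with h5 | h5
      · left; rw [h5, mul_assoc]
      · right; rw [h5, mul_assoc]

section Ascend

variable (ω : H →* Multiplicative ℤ) (t : H) (S : Set H)

/-- The generators `t^a s t^(-ω(s)) t^(-a)`, `0 ≤ a ≤ m`. -/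
private def gens (m : ℕ) : Set H :=
  {x | ∃ a : ℕ, a ≤ m ∧ ∃ s ∈ S, x = t ^ a * (s * t ^ (-(toAdd (ω s)))) * (t ^ a)⁻¹}

private lemma gens_mono {m n : ℕ} (h : m ≤ n) : gens ω t S m ⊆ gens ω t S n := by
  rintro x ⟨a, ha, s, hs, hx⟩
  exact ⟨a, ha.trans h, s, hs, hx⟩

private lemma gens_finite (hS : S.Finite) (m : ℕ) : (gens ω t S m).Finite := by
  have : gens ω t S m ⊆ (fun p : ℕ × H => t ^ p.1 * (p.2 * t ^ (-(toAdd (ω p.2)))) * (t ^ p.1)⁻¹) ''
      ((Set.Iic m) ×ˢ S) := by
    rintro x ⟨a, ha, s, hs, hx⟩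
    exact ⟨(a, s), ⟨ha, hs⟩, hx.symm⟩
  exact (((Set.finite_Iic m).prod hS).image _).subset this

/-- Along a path in `{0 ≤ ω}` the element `x t^(-ω(x))` stays in the union of the `B_m`. -/
private lemma mem_union_of_path (ht : toAdd (ω t) = 1) {x : H}
    (h : Relation.ReflTransGen (Step (toReal ω) S) 1 x) :
    ∃ m : ℕ, x * t ^ (-(toAdd (ω x))) ∈ Subgroup.closure (gens ω t S m) := by
  induction h with
  | refl => exact ⟨0, by simp [Subgroup.one_mem]⟩
  | tail _ h2 ih =>
    rename_i b c _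
    obtain ⟨m, hm⟩ := ih
    obtain ⟨h3, h4, s, hs, h5⟩ := h2
    rw [toReal_apply] at h3 h4
    have h3' : 0 ≤ toAdd (ω b) := by exact_mod_cast h3
    have h4' : 0 ≤ toAdd (ω c) := by exact_mod_cast h4
    obtain ⟨β, hβ⟩ := Int.eq_ofNat_of_zero_le h3'
    obtain ⟨γ, hγ⟩ := Int.eq_ofNat_of_zero_le h4'
    rcases h5 with h5 | h5
    · refine ⟨max m β, ?_⟩
      have e : c * t ^ (-(toAdd (ω c))) = (b * t ^ (-(toAdd (ω b)))) *
          (t ^ β * (s * t ^ (-(toAdd (ω s)))) * (t ^ β)⁻¹) := by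
        have e1 : toAdd (ω c) = toAdd (ω b) + toAdd (ω s) := by rw [h5, map_mul, toAdd_mul]
        rw [e1, hβ, h5]
        simp only [zpow_neg, zpow_add, Int.ofNat_eq_natCast, zpow_natCast, neg_add_rev, mul_inv_rev]
        group
      rw [e]
      refine Subgroup.mul_mem _ (Subgroup.closure_mono (gens_mono ω t S (le_max_left _ _)) hm) ?_
      exact Subgroup.subset_closure ⟨β, le_max_right _ _, s, hs, rfl⟩
    · refine ⟨max m γ, ?_⟩
      have e : c * t ^ (-(toAdd (ω c))) = (b * t ^ (-(toAdd (ω b)))) *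
          (t ^ γ * (s * t ^ (-(toAdd (ω s)))) * (t ^ γ)⁻¹)⁻¹ := by
        have e1 : toAdd (ω b) = toAdd (ω c) + toAdd (ω s) := by rw [h5, map_mul, toAdd_mul]
        rw [e1, hγ, h5]
        simp only [zpow_neg, zpow_add, Int.ofNat_eq_natCast, zpow_natCast, neg_add_rev, mul_inv_rev]
        group
      rw [e]
      refine Subgroup.mul_mem _ (Subgroup.closure_mono (gens_mono ω t S (le_max_left _ _)) hm) ?_
      exact Subgroup.inv_mem _ (Subgroup.subset_closure ⟨γ, le_max_right _ _, s, hs, rfl⟩)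

private lemma gens_ker (ht : toAdd (ω t) = 1) {m : ℕ} {x : H}
    (hx : x ∈ Subgroup.closure (gens ω t S m)) : toAdd (ω x) = 0 := by
  induction hx using Subgroup.closure_induction with
  | mem x hx =>
    obtain ⟨a, -, s, -, rfl⟩ := hx
    simp [map_mul, toAdd_mul, toAdd_zpow, toAdd_pow, ht]
  | one => simp
  | mul x y _ _ hx hy => rw [map_mul, toAdd_mul, hx, hy, add_zero]
  | inv x _ hx => rw [map_inv, toAdd_inv, hx, neg_zero]

/-- A discrete character in `Sigma^1` gives an ascending HNN extension. -/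
theorem ascending (ht : toAdd (ω t) = 1) (hS : S.Finite) (hc : Conn (toReal ω) S) :
    ∃ B : Subgroup H, B.FG ∧ (∀ b ∈ B, toAdd (ω b) = 0) ∧ (∀ b ∈ B, t⁻¹ * b * t ∈ B) ∧
      ∀ k, toAdd (ω k) = 0 → ∃ j : ℕ, (t ^ j)⁻¹ * k * t ^ j ∈ B := by
  have hker : ∀ k, toAdd (ω k) = 0 → ∃ m : ℕ, k ∈ Subgroup.closure (gens ω t S m) := by
    intro k hk
    have h1 := hc k (by rw [toReal_apply, hk]; simp)
    obtain ⟨m, hm⟩ := mem_union_of_path ω t S ht h1
    refine ⟨m, ?_⟩
    rw [hk] at hm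
    simpa using hm
  -- `t⁻¹ T t` is in one `B_m`
  have hconj : ∀ s : H, ∃ m : ℕ, s ∈ S →
      t⁻¹ * (s * t ^ (-(toAdd (ω s)))) * t ∈ Subgroup.closure (gens ω t S m) := by
    intro s
    obtain ⟨m, hm⟩ := hker (t⁻¹ * (s * t ^ (-(toAdd (ω s)))) * t) (by
      simp [map_mul, toAdd_mul, toAdd_zpow, ht])
    exact ⟨m, fun _ => hm⟩
  choose M hM using hconj
  obtain ⟨m, hm⟩ : ∃ m : ℕ, ∀ s ∈ S, M s ≤ m := by
    obtain ⟨m, hm⟩ := (hS.image M).bddAbove
    exact ⟨m, fun s hs => hm ⟨s, hs, rfl⟩⟩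
  have hT : ∀ s ∈ S, t⁻¹ * (s * t ^ (-(toAdd (ω s)))) * t ∈ Subgroup.closure (gens ω t S m) :=
    fun s hs => Subgroup.closure_mono (gens_mono ω t S (hm s hs)) (hM s hs)
  have hstab : ∀ b ∈ Subgroup.closure (gens ω t S m), t⁻¹ * b * t ∈
      Subgroup.closure (gens ω t S m) := by
    intro b hb
    induction hb using Subgroup.closure_induction with
    | mem x hx =>
      obtain ⟨a, ha, s, hs, rfl⟩ := hx
      rcases Nat.eq_zero_or_pos a with rfl | ha0
      · simpa using hT s hs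
      · obtain ⟨c, rfl⟩ : ∃ c, a = c + 1 := ⟨a - 1, by omega⟩
        refine Subgroup.subset_closure ⟨c, by omega, s, hs, ?_⟩
        rw [pow_succ']
        group
    | one => simp [Subgroup.one_mem]
    | mul x y _ _ hx hy =>
      have : t⁻¹ * (x * y) * t = (t⁻¹ * x * t) * (t⁻¹ * y * t) := by group
      rw [this]; exact Subgroup.mul_mem _ hx hy
    | inv x _ hx =>
      have : t⁻¹ * x⁻¹ * t = (t⁻¹ * x * t)⁻¹ := by group
      rw [this]; exact Subgroup.inv_mem _ hx
  have hstabn : ∀ n : ℕ, ∀ b ∈ Subgroup.closure (gens ω t S m), (t ^ n)⁻¹ * b * t ^ n ∈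
      Subgroup.closure (gens ω t S m) := by
    intro n
    induction n with
    | zero => intro b hb; simpa using hb
    | succ n ih =>
      intro b hb
      have : (t ^ (n + 1))⁻¹ * b * t ^ (n + 1) = t⁻¹ * ((t ^ n)⁻¹ * b * t ^ n) * t := by
        rw [pow_succ]; group
      rw [this]
      exact hstab _ (ih b hb)
  refine ⟨Subgroup.closure (gens ω t S m), ?_, fun b hb => gens_ker ω t S ht hb, hstab, ?_⟩
  · exact (Subgroup.fg_iff _).2 ⟨_, rfl, gens_finite ω t S hS m⟩
  · intro k hk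
    obtain ⟨n, hn⟩ := hker k hk
    refine ⟨n, ?_⟩
    have key : ∀ x ∈ Subgroup.closure (gens ω t S n), (t ^ n)⁻¹ * x * t ^ n ∈
        Subgroup.closure (gens ω t S m) := by
      intro x hx
      induction hx using Subgroup.closure_induction with
      | mem x hx =>
        obtain ⟨a, ha, s, hs, rfl⟩ := hx
        have h0 : s * t ^ (-(toAdd (ω s))) ∈ Subgroup.closure (gens ω t S m) :=
          Subgroup.subset_closure ⟨0, Nat.zero_le _, s, hs, by simp⟩
        have e : (t ^ n)⁻¹ * (t ^ a * (s * t ^ (-(toAdd (ω s)))) * (t ^ a)⁻¹) * t ^ n =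
            (t ^ (n - a))⁻¹ * (s * t ^ (-(toAdd (ω s)))) * t ^ (n - a) := by
          obtain ⟨d, rfl⟩ := Nat.exists_eq_add_of_le ha
          rw [Nat.add_sub_cancel_left, pow_add]
          group
        rw [e]
        exact hstabn _ _ h0
      | one => simp [Subgroup.one_mem]
      | mul x y _ _ hx hy =>
        have : (t ^ n)⁻¹ * (x * y) * t ^ n = ((t ^ n)⁻¹ * x * t ^ n) * ((t ^ n)⁻¹ * y * t ^ n) := by
          group
        rw [this]; exact Subgroup.mul_mem _ hx hy
      | inv x _ hx =>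
        have : (t ^ n)⁻¹ * x⁻¹ * t ^ n = ((t ^ n)⁻¹ * x * t ^ n)⁻¹ := by group
        rw [this]; exact Subgroup.inv_mem _ hx
    exact key k hn

/-- If the base is normalised by `t` then the opposite character is in `Sigma^1`. -/
theorem opposite (ht : toAdd (ω t) = 1) (B : Subgroup H) (hB : B.FG)
    (hB0 : ∀ b ∈ B, toAdd (ω b) = 0) (hup : ∀ b ∈ B, t * b * t⁻¹ ∈ B)
    (hall : ∀ k, toAdd (ω k) = 0 → ∃ j : ℕ, (t ^ j)⁻¹ * k * t ^ j ∈ B) :
    (toReal ω)⁻¹ ∈ Sigma H := by
  have hupn : ∀ n : ℕ, ∀ b ∈ B, t ^ n * b * (t ^ n)⁻¹ ∈ B := by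
    intro n
    induction n with
    | zero => intro b hb; simpa using hb
    | succ n ih =>
      intro b hb
      have : t ^ (n + 1) * b * (t ^ (n + 1))⁻¹ = t * (t ^ n * b * (t ^ n)⁻¹) * t⁻¹ := by
        rw [pow_succ']; group
      rw [this]
      exact hup _ (ih b hb)
  have hkerB : ∀ k, toAdd (ω k) = 0 → k ∈ B := by
    intro k hk
    obtain ⟨j, hj⟩ := hall k hk
    have := hupn j _ hj
    have e : t ^ j * ((t ^ j)⁻¹ * k * t ^ j) * (t ^ j)⁻¹ = k := by group
    rwa [e] at this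
  obtain ⟨T, hTB, hTfin⟩ := (Subgroup.fg_iff B).1 hB
  have hT0 : ∀ x ∈ T, toAdd (ω x) = 0 := fun x hx => hB0 x (hTB ▸ Subgroup.subset_closure hx)
  refine ⟨?_, insert t T, hTfin.insert t, ?_, ?_⟩
  · intro h
    have h1 : toAdd ((toReal ω)⁻¹ t) = 0 := by rw [h]; simp
    rw [MonoidHom.inv_apply, toAdd_inv, toReal_apply, ht] at h1
    norm_num at h1
  · rw [eq_top_iff]
    intro h _
    have h1 : h * t ^ (-(toAdd (ω h))) ∈ B := hkerB _ (by
      simp [map_mul, toAdd_mul, toAdd_zpow, ht])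
    have h2 : h * t ^ (-(toAdd (ω h))) ∈ Subgroup.closure (insert t T) := by
      rw [← hTB] at h1
      exact Subgroup.closure_mono (Set.subset_insert _ _) h1
    have h3 : t ∈ Subgroup.closure (insert t T) := Subgroup.subset_closure (Set.mem_insert _ _)
    have e : h = (h * t ^ (-(toAdd (ω h)))) * t ^ (toAdd (ω h)) := by group
    rw [e]
    exact Subgroup.mul_mem _ h2 (Subgroup.zpow_mem _ h3 _)
  · intro h hh
    rw [MonoidHom.inv_apply, toAdd_inv, toReal_apply] at hh
    have hh' : toAdd (ω h) ≤ 0 := by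
      have : ((toAdd (ω h) : ℤ) : ℝ) ≤ 0 := by linarith
      exact_mod_cast this
    -- elements of `B` are joined to one
    have hBpath : ∀ b ∈ B, Relation.ReflTransGen (Step (toReal ω)⁻¹ (insert t T)) 1 b := by
      intro b hb
      rw [← hTB] at hb
      induction hb using Subgroup.closure_induction with
      | mem x hx =>
        refine Relation.ReflTransGen.single ⟨?_, ?_, x, Set.mem_insert_of_mem _ hx, Or.inl ?_⟩
        · simp
        · rw [MonoidHom.inv_apply, toAdd_inv, toReal_apply, hT0 x hx]; simp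
        · rw [one_mul]
      | one => exact .refl
      | mul x y hx hy ihx ihy =>
        have h0 : 0 ≤ toAdd ((toReal ω)⁻¹ x) := by
          rw [MonoidHom.inv_apply, toAdd_inv, toReal_apply, hB0 x (hTB ▸ hx)]; simp
        have := path_mul x h0 ihy
        rw [mul_one] at this
        exact ihx.trans this
      | inv x hx ihx =>
        have h0 : 0 ≤ toAdd ((toReal ω)⁻¹ x⁻¹) := by
          rw [MonoidHom.inv_apply, toAdd_inv, toReal_apply, map_inv, toAdd_inv,
            hB0 x (hTB ▸ hx)]; simp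
        have := path_mul x⁻¹ h0 (path_symm ihx)
        rwa [mul_one, inv_mul_cancel] at this
    obtain ⟨n, hn⟩ : ∃ n : ℕ, toAdd (ω h) = -(n : ℤ) := ⟨(-(toAdd (ω h))).toNat, by omega⟩
    have h1 : h * t ^ n ∈ B := hkerB _ (by simp [map_mul, toAdd_mul, toAdd_pow, ht, hn])
    have h2 := hBpath _ h1
    have h3 : ∀ k : ℕ, Relation.ReflTransGen (Step (toReal ω)⁻¹ (insert t T)) 1
        (h * t ^ n * (t ^ k)⁻¹) := by
      intro k
      induction k with
      | zero => simpa using h2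
      | succ k ih =>
        refine ih.tail ⟨?_, ?_, t, Set.mem_insert _ _, Or.inr ?_⟩
        · rw [MonoidHom.inv_apply, toAdd_inv, toReal_apply]
          simp [map_mul, toAdd_mul, toAdd_pow, ht, hn]
        · rw [MonoidHom.inv_apply, toAdd_inv, toReal_apply]
          simp [map_mul, toAdd_mul, toAdd_pow, ht, hn]
          positivity
        · rw [pow_succ]; group
    have := h3 n
    have e : h * t ^ n * (t ^ n)⁻¹ = h := by group
    rwa [e] at this

end Ascend

/-- `Sigma^1` does not depend on the finite generating set. -/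
theorem sigma_indep (χ : H →* Multiplicative ℝ) (S S' : Set H) (hS : S.Finite)
    (hcl : Subgroup.closure S' = ⊤) (hne : χ ≠ 1) (hc : Conn χ S) : Conn χ S' := by
  classical
  -- an element of `S'` or an inverse with positive value
  obtain ⟨t, ht, htS⟩ : ∃ t : H, 0 < toAdd (χ t) ∧ (t ∈ S' ∨ t⁻¹ ∈ S') := by
    by_contra hcon
    push Not at hcon
    apply hne
    have h0 : ∀ s ∈ S', toAdd (χ s) = 0 := by
      intro s hs
      by_contra h1
      rcases lt_or_gt_of_ne h1 with h2 | h2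
      · exact (hcon s⁻¹ (by rw [map_inv, toAdd_inv]; linarith)).2 (by rwa [inv_inv])
      · exact (hcon s h2).1 hs
    ext x
    have hx : x ∈ Subgroup.closure S' := by rw [hcl]; trivial
    have : toAdd (χ x) = 0 := by
      induction hx using Subgroup.closure_induction with
      | mem x hx => exact h0 x hx
      | one => simp
      | mul x y _ _ hx hy => rw [map_mul, toAdd_mul, hx, hy, add_zero]
      | inv x _ hx => rw [map_inv, toAdd_inv, hx, neg_zero]
    simpa using this
  -- a path in `{- c ≤ χ}`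
  set P : ℝ → H → H → Prop := fun c => Relation.ReflTransGen (fun a b =>
    -c ≤ toAdd (χ a) ∧ -c ≤ toAdd (χ b) ∧ ∃ s ∈ S', b = a * s ∨ a = b * s) with hP
  have hmono : ∀ c d : ℝ, c ≤ d → ∀ a b, P c a b → P d a b := by
    intro c d hcd a b h
    refine rtg_mono (fun x y h1 => ?_) h
    exact ⟨by linarith [h1.1], by linarith [h1.2.1], h1.2.2⟩
  have hleft : ∀ (c : ℝ) (g a b : H), P c a b → P (c - toAdd (χ g)) (g * a) (g * b) := by
    intro c g a b h
    induction h with
    | refl => exact .refl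
    | tail _ h2 ih =>
      refine ih.tail ?_
      obtain ⟨h3, h4, s, hs, h5⟩ := h2
      refine ⟨?_, ?_, s, hs, ?_⟩
      · rw [map_mul, toAdd_mul]; linarith
      · rw [map_mul, toAdd_mul]; linarith
      · rcases h5 with h5 | h5
        · left; rw [h5, mul_assoc]
        · right; rw [h5, mul_assoc]
  have hsymm : ∀ c a b, P c a b → P c b a := by
    intro c a b h
    induction h with
    | refl => exact .refl
    | tail _ h2 ih =>
      refine (Relation.ReflTransGen.single ?_).trans ih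
      exact ⟨h2.2.1, h2.1, h2.2.2.imp fun s hs => ⟨hs.1, hs.2.symm⟩⟩
  -- every element is joined to one at some depth
  have hword : ∀ x : H, ∃ c : ℝ, P c 1 x := by
    intro x
    have hx : x ∈ Subgroup.closure S' := by rw [hcl]; trivial
    induction hx using Subgroup.closure_induction with
    | mem x hx =>
      refine ⟨|toAdd (χ x)|, Relation.ReflTransGen.single ⟨?_, ?_, x, hx, Or.inl (one_mul x).symm⟩⟩
      · simp
      · exact neg_abs_le _
    | one => exact ⟨0, .refl⟩
    | mul x y _ _ hx hy =>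
      obtain ⟨c, hc⟩ := hx
      obtain ⟨d, hd⟩ := hy
      refine ⟨max c (d - toAdd (χ x)), ?_⟩
      have h1 := hleft d x 1 y hd
      rw [mul_one] at h1
      exact (hmono _ _ (le_max_left _ _) _ _ hc).trans (hmono _ _ (le_max_right _ _) _ _ h1)
    | inv x _ hx =>
      obtain ⟨c, hc⟩ := hx
      have h1 := hleft c x⁻¹ 1 x hc
      rw [mul_one, inv_mul_cancel] at h1
      exact ⟨_, hsymm _ _ _ h1⟩
  choose f hf using hword
  obtain ⟨c, hcS⟩ : ∃ c : ℝ, ∀ s ∈ S, f s ≤ c := by
    obtain ⟨c, hc⟩ := (hS.image f).bddAbove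
    exact ⟨c, fun s hs => hc ⟨s, hs, rfl⟩⟩
  -- paths for `S` become paths for `S'` at depth `c`
  have hlift : ∀ x, Relation.ReflTransGen (Step χ S) 1 x → P c 1 x := by
    intro x h
    induction h with
    | refl => exact .refl
    | tail _ h2 ih =>
      rename_i a b _
      refine ih.trans ?_
      obtain ⟨h3, h4, s, hs, h5⟩ := h2
      rcases h5 with h5 | h5
      · have h6 := hleft _ a _ _ (hf s)
        rw [mul_one, ← h5] at h6
        exact hmono _ _ (by linarith [hcS s hs]) _ _ h6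
      · have h6 := hleft _ b _ _ (hf s)
        rw [mul_one, ← h5] at h6
        exact hsymm _ _ _ (hmono _ _ (by linarith [hcS s hs]) _ _ h6)
  obtain ⟨k, hk⟩ : ∃ k : ℕ, c ≤ k * toAdd (χ t) := by
    obtain ⟨k, hk⟩ := exists_nat_ge (c / toAdd (χ t))
    exact ⟨k, by rwa [div_le_iff₀ ht] at hk⟩
  have hclimb : ∀ x : H, 0 ≤ toAdd (χ x) → ∀ n : ℕ, P 0 x (x * t ^ n) := by
    intro x hx n
    induction n with
    | zero => rw [pow_zero, mul_one]
    | succ n ih =>
      refine ih.tail ⟨?_, ?_, ?_⟩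
      · rw [map_mul, toAdd_mul, map_pow, toAdd_pow, neg_zero, nsmul_eq_mul]
        positivity
      · rw [map_mul, toAdd_mul, map_pow, toAdd_pow, neg_zero, nsmul_eq_mul]
        positivity
      · rcases htS with h1 | h1
        · exact ⟨t, h1, Or.inl (by rw [pow_succ]; group)⟩
        · exact ⟨t⁻¹, h1, Or.inr (by rw [pow_succ]; group)⟩
  intro x hx
  have hx' : 0 ≤ toAdd (χ ((t ^ k)⁻¹ * x * t ^ k)) := by
    rw [map_mul χ, map_mul χ, map_inv χ, toAdd_mul, toAdd_mul, toAdd_inv]
    linarith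
  have h1 := hleft c (t ^ k) _ _ (hlift _ (hc _ hx'))
  have e : t ^ k * ((t ^ k)⁻¹ * x * t ^ k) = x * t ^ k := by group
  rw [mul_one, e] at h1
  have h2 : P 0 (t ^ k) (x * t ^ k) := by
    refine hmono _ _ ?_ _ _ h1
    rw [map_pow, toAdd_pow, nsmul_eq_mul]
    linarith
  have h3 := hclimb 1 (by simp) k
  rw [one_mul] at h3
  have h4 := (h3.trans h2).trans (hsymm _ _ _ (hclimb x hx k))
  refine rtg_mono (fun a b h => ?_) h4
  rw [neg_zero] at h
  exact h

/-- In a LERF group a finitely generated subgroup is not conjugate to a proper subgroup of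
itself. -/
theorem no_ascent {G : Type} [Group G] (hG : IsLERF G) (K : Subgroup G) (hK : K.FG) (t : G)
    (h : ∀ b ∈ K, t⁻¹ * b * t ∈ K) : ∀ b ∈ K, t * b * t⁻¹ ∈ K := by
  intro b hb
  rw [hG K hK, Subgroup.mem_sInf]
  rintro L ⟨hL, hKL⟩
  obtain ⟨e, he0, he⟩ := Subgroup.exists_pow_mem_of_index_ne_zero (H := L) hL.index_ne_zero t
  have hdown : ∀ n : ℕ, (t ^ n)⁻¹ * b * t ^ n ∈ K := by
    intro n
    induction n with
    | zero => simpa using hb
    | succ n ih =>
      have : (t ^ (n + 1))⁻¹ * b * t ^ (n + 1) = t⁻¹ * ((t ^ n)⁻¹ * b * t ^ n) * t := by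
        rw [pow_succ]; group
      rw [this]
      exact h _ ih
  obtain ⟨c, rfl⟩ : ∃ c, e = c + 1 := ⟨e - 1, by omega⟩
  have h1 := hKL (hdown c)
  have h2 : t ^ (c + 1) * ((t ^ c)⁻¹ * b * t ^ c) * (t ^ (c + 1))⁻¹ ∈ L :=
    L.mul_mem (L.mul_mem he.2 h1) (L.inv_mem he.2)
  have e2 : t ^ (c + 1) * ((t ^ c)⁻¹ * b * t ^ c) * (t ^ (c + 1))⁻¹ = t * b * t⁻¹ := by
    rw [pow_succ']; group
  rwa [e2] at h2

/-- A nontrivial integer valued homomorphism is a positive multiple of a surjective one. -/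
theorem exists_primitive (ψ : H →* Multiplicative ℤ) (hψ : ψ ≠ 1) :
    ∃ (ω : H →* Multiplicative ℤ) (d : ℤ) (t : H), 0 < d ∧ toAdd (ω t) = 1 ∧
      ∀ h, toAdd (ψ h) = d * toAdd (ω h) := by
  classical
  have hex : ∃ n : ℕ, 0 < n ∧ ∃ h : H, toAdd (ψ h) = (n : ℤ) := by
    by_contra hcon
    apply hψ
    ext h
    by_contra hne
    have hne' : toAdd (ψ h) ≠ 0 := fun h0 => hne (by simpa using congrArg ofAdd h0)
    rcases lt_or_gt_of_ne hne' with h1 | h1
    · exact hcon ⟨(toAdd (ψ h⁻¹)).toNat, by rw [map_inv, toAdd_inv]; omega, h⁻¹, by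
        rw [map_inv, toAdd_inv]; omega⟩
    · exact hcon ⟨(toAdd (ψ h)).toNat, by omega, h, by omega⟩
  obtain ⟨hpos, t, ht⟩ := Nat.find_spec hex
  set d := Nat.find hex with hd
  have hdvd : ∀ h, (d : ℤ) ∣ toAdd (ψ h) := by
    intro h
    have hmod := Int.emod_add_mul_ediv (toAdd (ψ h)) d
    have hr0 := Int.emod_nonneg (toAdd (ψ h)) (show (d : ℤ) ≠ 0 by omega)
    have hr1 := Int.emod_lt_of_pos (toAdd (ψ h)) (show (0 : ℤ) < d by omega)
    rcases eq_or_lt_of_le hr0 with h0 | h0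
    · exact Int.dvd_of_emod_eq_zero h0.symm
    · exfalso
      have hmin := Nat.find_min hex (m := ((toAdd (ψ h)) % d).toNat) (by rw [← hd]; omega)
      apply hmin
      refine ⟨by omega, h * t ^ (-(toAdd (ψ h) / d)), ?_⟩
      rw [map_mul, toAdd_mul, map_zpow, toAdd_zpow, ht]
      simp only [smul_eq_mul]
      have : (((toAdd (ψ h) % (d : ℤ)).toNat : ℕ) : ℤ) = toAdd (ψ h) % (d : ℤ) := by omega
      rw [this]
      linarith
  refine ⟨{ toFun := fun h => ofAdd (toAdd (ψ h) / (d : ℤ))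
            map_one' := by simp
            map_mul' := fun a b => by
              rw [map_mul, toAdd_mul, Int.add_ediv_of_dvd_left (hdvd a), ofAdd_add] }, d, t,
    by omega, ?_, ?_⟩
  · change toAdd (ψ t) / (d : ℤ) = 1
    rw [ht]
    exact Int.ediv_self (by omega)
  · intro h
    change toAdd (ψ h) = d * (toAdd (ψ h) / (d : ℤ))
    exact (Int.mul_ediv_cancel' (hdvd h)).symm

/-- **Discrete non-symmetric characters obstruct LERF.** If `-ψ` is in `Sigma^1(H)` and `ψ` is not,
`H` a subgroup of `G` and `ψ` integer valued, then `G` is not LERF. -/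
theorem not_lerf {G : Type} [Group G] (H : Subgroup G) (ψ : H →* Multiplicative ℤ)
    (h1 : toReal ψ⁻¹ ∈ Sigma H) (h2 : toReal ψ ∉ Sigma H) : ¬ IsLERF G := by
  intro hG
  obtain ⟨hne, S, hSfin, hS, hc⟩ := h1
  have hne' : ψ⁻¹ ≠ 1 := by
    intro h0
    apply hne
    rw [h0]
    ext x
    simp [toReal]
  obtain ⟨ω, d, t, hd, ht, hω⟩ := exists_primitive ψ⁻¹ hne'
  have hc' : Conn (toReal ω) S := by
    have hpos : ∀ x, 0 ≤ toAdd (toReal ψ⁻¹ x) ↔ 0 ≤ toAdd (toReal ω x) := by
      intro x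
      rw [toReal_apply, toReal_apply, hω x]
      push_cast
      have hd' : (0 : ℝ) < d := by exact_mod_cast hd
      constructor
      · intro h; exact nonneg_of_mul_nonneg_right h hd'
      · intro h; positivity
    intro x hx
    have := hc x ((hpos x).2 hx)
    refine rtg_mono (fun a b h => ?_) this
    obtain ⟨h3, h4, h5⟩ := h
    exact ⟨(hpos a).1 h3, (hpos b).1 h4, h5⟩
  obtain ⟨B, hBfg, hB0, hBt, hall⟩ := ascending ω t S ht hSfin hc'
  have hfgG : (B.map H.subtype).FG := by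
    obtain ⟨T, hTB, hTfin⟩ := (Subgroup.fg_iff B).1 hBfg
    refine (Subgroup.fg_iff _).2 ⟨H.subtype '' T, ?_, hTfin.image _⟩
    rw [← MonoidHom.map_closure, hTB]
  have hup : ∀ b ∈ B, t * b * t⁻¹ ∈ B := by
    intro b hb
    have h3 := no_ascent hG (B.map H.subtype) hfgG (t : G) (by
      rintro _ ⟨b, hb, rfl⟩
      exact ⟨t⁻¹ * b * t, hBt b hb, by simp⟩) (b : G) ⟨b, hb, rfl⟩
    obtain ⟨c, hc1, hc2⟩ := h3
    have : c = t * b * t⁻¹ := by
      apply Subtype.ext
      simpa using hc2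
    rwa [this] at hc1
  have hopp := opposite ω t ht B hBfg hB0 hup hall
  obtain ⟨hne2, S', hS'fin, hS', hcc⟩ := hopp
  apply h2
  have hpos : ∀ x, 0 ≤ toAdd ((toReal ω)⁻¹ x) ↔ 0 ≤ toAdd (toReal ψ x) := by
    intro x
    have e : toAdd (ψ x) = - (d * toAdd (ω x)) := by
      have := hω x
      rw [MonoidHom.inv_apply, toAdd_inv] at this
      linarith
    rw [MonoidHom.inv_apply, toAdd_inv, toReal_apply, toReal_apply, e]
    push_cast
    have hd' : (0 : ℝ) < d := by exact_mod_cast hd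
    constructor
    · intro h
      have : (d : ℝ) * ((toAdd (ω x) : ℤ) : ℝ) ≤ 0 := mul_nonpos_of_nonneg_of_nonpos hd'.le (by linarith)
      linarith
    · intro h
      have : (d : ℝ) * ((toAdd (ω x) : ℤ) : ℝ) ≤ 0 := by linarith
      have := nonpos_of_mul_nonpos_right this hd'
      linarith
  refine ⟨?_, S', hS'fin, hS', ?_⟩
  · intro h0
    apply hne
    ext x
    have : toAdd (toReal ψ x) = 0 := by rw [h0]; simp
    rw [toReal_apply] at this
    have h5 : toAdd (toReal ψ⁻¹ x) = 0 := by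
      rw [toReal_apply, MonoidHom.inv_apply, toAdd_inv]
      push_cast
      rw [this, neg_zero]
    simpa using h5
  · intro x hx
    have := hcc x ((hpos x).2 hx)
    refine rtg_mono (fun a b h => ?_) this
    obtain ⟨h3, h4, h5⟩ := h
    exact ⟨(hpos a).1 h3, (hpos b).1 h4, h5⟩

end FCyc
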