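import Mathlib

/-!
# Hyperbolic free-by-cyclic groups with irreducible monodromy: definitions and published facts

Definitions of the problem MP_fc7159_al (free-by-cyclic group, irreducible, hyperbolic, LERF,
the invariant Sigma^1), and the structure `Facts` of the published results which are used.
-/

namespace FCyc

open Multiplicative

/-! ## The objects of the problem -/

/-- LERF: every finitely generated subgroup is the intersection of the finite index subgroups
which contain it. -/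
def IsLERF (G : Type) [Group G] : Prop :=
  ∀ K : Subgroup G, K.FG → K = sInf {L : Subgroup G | L.FiniteIndex ∧ K ≤ L}

/-- One step in the full subgraph of the Cayley graph of `(H, S)` on `{h | 0 ≤ χ h}`. -/
def Step {H : Type} [Group H] (χ : H →* Multiplicative ℝ) (S : Set H) (a b : H) : Prop :=
  0 ≤ toAdd (χ a) ∧ 0 ≤ toAdd (χ b) ∧ ∃ s ∈ S, b = a * s ∨ a = b * s

/-- The full subgraph of the Cayley graph of `(H, S)` on `{h | 0 ≤ χ h}` is connected. -/
def Conn {H : Type} [Group H] (χ : H →* Multiplicative ℝ) (S : Set H) : Prop :=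
  ∀ h : H, 0 ≤ toAdd (χ h) → Relation.ReflTransGen (Step χ S) 1 h

/-- The invariant `Sigma^1(H)`, as a set of nonzero homomorphisms `H → ℝ` (closed under
multiplication by positive reals). It does not depend on the finite generating set `S`
(`sigma_indep`). -/
def Sigma (H : Type) [Group H] : Set (H →* Multiplicative ℝ) :=
  {χ | χ ≠ 1 ∧ ∃ S : Set H, S.Finite ∧ Subgroup.closure S = ⊤ ∧ Conn χ S}

/-- `Sigma^1(H) = - Sigma^1(H)`. -/
def IsSymm (H : Type) [Group H] : Prop := ∀ χ : H →* Multiplicative ℝ, χ ∈ Sigma H ↔ χ⁻¹ ∈ Sigma H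

/-- The semidirect product of the free group of rank `n` and `ℤ`, with monodromy `φ`. -/
abbrev FbC {n : ℕ} (φ : MulAut (FreeGroup (Fin n))) : Type :=
  SemidirectProduct (FreeGroup (Fin n)) (Multiplicative ℤ) (zpowersHom (MulAut (FreeGroup (Fin n))) φ)

/-- The outer class of `φ` is reducible: there is a free factor system
`F = A_1 * ... * A_k * B`, `k ≥ 1`, all `A_i` nontrivial, `k ≥ 2` or `B` nontrivial, whose
conjugacy classes `[A_1], ..., [A_k]` are permuted by `φ`. -/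
def IsReducible {n : ℕ} (φ : MulAut (FreeGroup (Fin n))) : Prop :=
  ∃ (k : ℕ) (A : Option (Fin k) → Subgroup (FreeGroup (Fin n))),
    1 ≤ k ∧ Function.Bijective (Monoid.CoprodI.lift fun i => (A i).subtype) ∧
    (∀ i : Fin k, A (some i) ≠ ⊥) ∧ (2 ≤ k ∨ A none ≠ ⊥) ∧
    ∃ σ : Equiv.Perm (Fin k), ∀ i : Fin k, ∃ g : FreeGroup (Fin n),
      (A (some i)).map φ.toMonoidHom = (A (some (σ i))).map (MulAut.conj g).toMonoidHom

/-- Word length with respect to `S`. -/
noncomputable def len {G : Type} [Group G] (S : Set G) (g : G) : ℕ :=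
  sInf {k | ∃ l : List G, l.length = k ∧ (∀ x ∈ l, x ∈ S ∨ x⁻¹ ∈ S) ∧ l.prod = g}

/-- Word-hyperbolic: finitely generated, and the word metric satisfies Gromov's four point
condition. -/
def IsHyperbolic (G : Type) [Group G] : Prop :=
  ∃ S : Set G, S.Finite ∧ Subgroup.closure S = ⊤ ∧ ∃ δ : ℕ, ∀ x y z w : G,
    len S (x⁻¹ * y) + len S (z⁻¹ * w) ≤
      max (len S (x⁻¹ * z) + len S (y⁻¹ * w)) (len S (x⁻¹ * w) + len S (y⁻¹ * z)) + δ

/-! ## Coarse flow lines -/

section Paths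

variable {G : Type} [Group G]

/-- Height of `g` for `u : G → ℤ`. -/
abbrev ht (u : G →* Multiplicative ℤ) (g : G) : ℤ := toAdd (u g)

/-- A path in `G` with steps (right multiplication) in `S` along which `u` grows by one in each
step. As `u` is Lipschitz, all these paths are uniform quasi-geodesics if `S` is finite. -/
structure IsPath (u : G →* Multiplicative ℤ) (S : Set G) (p : ℤ → G) : Prop where
  step : ∀ i, (p i)⁻¹ * p (i + 1) ∈ S
  height : ∀ i, ht u (p (i + 1)) = ht u (p i) + 1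

/-- `g` is in `<c> B`. -/
def InTube (c : G) (B : Set G) (g : G) : Prop := ∃ k : ℤ, ∃ b ∈ B, g = c ^ k * b

/-- The path stays within a bounded distance of the cyclic group of `c`. -/
def Near (c : G) (p : ℤ → G) : Prop := ∃ B : Set G, B.Finite ∧ ∀ i, InTube c B (p i)

/-- The elements of positive height whose axis is followed by a path of the family `Φ`. -/
def Per (u : G →* Multiplicative ℤ) (Φ : Set (ℤ → G)) : Set G :=
  {c | 0 < ht u c ∧ ∃ p ∈ Φ, Near c p}

/-- The path crosses the wall of the halfspace `V`. -/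
def Crosses (V : Set G) (p : ℤ → G) : Prop := ∃ i, ¬ (p i ∈ V ↔ p (i + 1) ∈ V)

/-- The translate `g V`. -/
def tr (g : G) (V : Set G) : Set G := {x | g⁻¹ * x ∈ V}

/-- The stabiliser of `V`: `g V = V`. -/
def stab (V : Set G) : Set G := {g | ∀ x, g * x ∈ V ↔ x ∈ V}

/-- The family of paths is invariant under `G` and under shifts, and closed under pointwise
limits. -/
structure IsFlow (u : G →* Multiplicative ℤ) (S : Set G) (Φ : Set (ℤ → G)) : Prop where
  path : ∀ p ∈ Φ, IsPath u S p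
  smul : ∀ g : G, ∀ p ∈ Φ, (fun i => g * p i) ∈ Φ
  shift : ∀ k : ℤ, ∀ p ∈ Φ, (fun i => p (i + k)) ∈ Φ
  closed : ∀ p : ℤ → G, (∀ N : ℕ, ∃ q ∈ Φ, ∀ i : ℤ, |i| ≤ N → q i = p i) → p ∈ Φ

/-- A halfspace `U` of `G` skewered by `c`. -/
structure Wall (u : G →* Multiplicative ℤ) (S : Set G) (c : G) where
  U : Set G
  nested : ∀ g ∈ U, c * g ∈ U
  low : ∃ k : ℤ, c ^ k ∉ U
  high : ∃ k : ℤ, c ^ k ∈ U
  thin : ∀ s : G, ∃ B : Set G, B.Finite ∧ ∀ g, ¬ (g ∈ U ↔ g * s ∈ U) → ∃ b ∈ B, g * b⁻¹ ∈ stab U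
  closed : ∀ m : ℕ, 1 ≤ m → ∀ g : G,
    (∀ p ∈ stab U, ∀ q ∈ stab U, ∀ k : ℤ, g ≠ p * c ^ (m * k) * q) →
    ∃ N : Subgroup G, N.Normal ∧ N.FiniteIndex ∧
      ∀ p ∈ stab U, ∀ q ∈ stab U, ∀ k : ℤ, (p * c ^ (m * k) * q)⁻¹ * g ∉ N
  gate : ∃ E : Set G, E.Finite ∧ ∃ L : ℕ, ∀ l : ℤ, L ≤ |l| → ∀ p : ℤ → G, IsPath u S p →
    Crosses U p → Crosses (tr (c ^ l) U) p → (∃ i, p i ∈ E) ∧ ∃ i, (c ^ l)⁻¹ * p i ∈ E
  morse : ∀ E : Set G, E.Finite → ∃ B : Set G, B.Finite ∧ ∀ p : ℤ → G, IsPath u S p →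
    ∀ i k j, i ≤ k → k ≤ j → InTube c E (p i) → InTube c E (p j) → InTube c B (p k)

end Paths

end FCyc
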